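import Mathlib

/-! # Lo/Cb: counting

`m i` is the number of jumps of the piece `i`. Write the number of elements of a filter as a sum of
`if ... then 1 else 0` and compare the sums term by term.
`case_zero`: `m i ≥ 2 - [m i ≤ 1] - [m i = 0]`, at most one `i` with `m i = 0`.
`case_a`: for `i ≠ a`: `m i + [m i = 1] ≥ 2`; so `n + s ≥ m a + 2 (N - 1)` with `s` = number of `i` with
`m i = 1` (`a` is not one of them), `s ≤ m a + 1`.
`case_b`: `m i + 2 [m i = 1] ≥ 3`, so `n + 2 s ≥ 3 N`; and `[m i = 1] + [m (i + k) = 1] ≤ 1 + [both]`, so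
`2 s ≤ N + 2`. -/

set_option autoImplicit false

namespace Pool.Agent.H.MP_b0c270_co.Lo

open Finset

theorem case_zero {N n : ℕ} {m : Fin N → ℕ} (hs : ∑ i, m i = n)
    (hz : ∀ i j, m i = 0 → m j = 0 → i = j) (hE : (univ.filter fun i => m i ≤ 1).card ≤ 2) :
    2 * N ≤ n + 3 := by
  have h1 : ∑ _i : Fin N, 2 ≤
      ∑ i, (m i + (if m i ≤ 1 then 1 else 0) + (if m i = 0 then 1 else 0)) := by
    refine Finset.sum_le_sum fun i _ => ?_
    split_ifs <;> omega
  rw [Finset.sum_add_distrib, Finset.sum_add_distrib, hs, ← Finset.card_filter,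
    ← Finset.card_filter, Finset.sum_const, Finset.card_univ, Fintype.card_fin, smul_eq_mul] at h1
  have h2 : (univ.filter fun i => m i = 0).card ≤ 1 :=
    Finset.card_le_one.2 fun i hi j hj =>
      hz i j (Finset.mem_filter.1 hi).2 (Finset.mem_filter.1 hj).2
  omega

theorem case_a {N n : ℕ} {m : Fin N → ℕ} (hs : ∑ i, m i = n) (a : Fin N)
    (hz : ∀ i, m i = 0 → i = a) (ha : m a ≠ 1)
    (hS : (univ.filter fun i => m i = 1).card ≤ m a + 1) :
    2 * N ≤ n + 3 := by
  have h1 : ∑ i : Fin N, (2 + (if i = a then m a else 0)) ≤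
      ∑ i, (m i + (if m i = 1 then 1 else 0) + (if i = a then 2 else 0)) := by
    refine Finset.sum_le_sum fun i _ => ?_
    by_cases h : i = a
    · subst h
      rw [if_pos rfl, if_pos rfl]
      omega
    · have h2 := mt (hz i) h
      rw [if_neg h, if_neg h]
      split_ifs <;> omega
  rw [Finset.sum_add_distrib, Finset.sum_add_distrib, Finset.sum_add_distrib, hs,
    ← Finset.card_filter, Finset.sum_ite_eq' univ a, Finset.sum_ite_eq' univ a,
    if_pos (Finset.mem_univ a), if_pos (Finset.mem_univ a), Finset.sum_const, Finset.card_univ,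
    Fintype.card_fin, smul_eq_mul] at h1
  omega

theorem case_b {N n : ℕ} [NeZero N] {m : Fin N → ℕ} (hs : ∑ i, m i = n) (hz : ∀ i, m i ≠ 0)
    (h2 : ∀ i, m i ≠ 2) (k : Fin N)
    (hk : (univ.filter fun i => m i = 1 ∧ m (i + k) = 1).card ≤ 2) :
    2 * N ≤ n + 3 := by
  have h1 : ∑ _i : Fin N, 3 ≤
      ∑ i, (m i + ((if m i = 1 then 1 else 0) + (if m i = 1 then 1 else 0))) := by
    refine Finset.sum_le_sum fun i _ => ?_
    have h3 := hz i
    have h4 := h2 i
    split_ifs <;> omega
  have h3 : ∑ i : Fin N, ((if m i = 1 then 1 else 0) + (if m (i + k) = 1 then 1 else 0)) ≤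
      ∑ i, (1 + (if m i = 1 ∧ m (i + k) = 1 then 1 else 0)) := by
    refine Finset.sum_le_sum fun i _ => ?_
    split_ifs <;> omega
  have h4 : ∑ i : Fin N, (if m (i + k) = 1 then 1 else 0) = ∑ i, (if m i = 1 then 1 else 0) :=
    Equiv.sum_comp (Equiv.addRight k) (fun i => if m i = 1 then 1 else 0)
  rw [Finset.sum_add_distrib, Finset.sum_add_distrib, hs, Finset.sum_const, Finset.card_univ,
    Fintype.card_fin, smul_eq_mul] at h1
  rw [Finset.sum_add_distrib, Finset.sum_add_distrib, h4, ← Finset.card_filter (fun i =>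
    m i = 1 ∧ m (i + k) = 1), Finset.sum_const, Finset.card_univ,
    Fintype.card_fin, smul_eq_mul] at h3
  omega

end Pool.Agent.H.MP_b0c270_co.Lo
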