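import Mathlib

/-! # Lo/Cc: two lemmas on commutative rings

`circle`: `(b + ν x)(b' + ν' x') = 1`, multiply by `x`: `ν b' x² + (b b' + ν ν' - 1) x + b ν' = 0` for the
three `x l`. Differences of the `x l` are units, so `ν b' = 0`, `b b' + ν ν' = 1`, `b ν' = 0`.
`ν (x 0 - x 1) = y 0 - y 1` is `0` (then `ν = 0`) or a unit; in the second case `ν` is a unit, `b' = 0`,
`b = b (b b' + ν ν') = 0`.
`pair`: `s = u₁ + u₂ = w₁ + w₂`, `s' = u₁' + u₂' = w₁' + w₂'`, `s' u₁ u₂ = s = s' w₁ w₂`, `s` is a unit, so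
`s'` is a unit and `u₁ u₂ = w₁ w₂`, so `(w₁ - u₁)(w₁ - u₂) = 0`. -/

set_option autoImplicit false

namespace Pool.Agent.H.MP_b0c270_co.Lo

theorem circle {Q : Type*} [CommRing Q] {b b' ν ν' : Q} {x x' y y' : Fin 3 → Q}
    (hx : ∀ l, x l * x' l = 1) (hy : ∀ l, y l * y' l = 1) (e : ∀ l, b + ν * x l = y l)
    (e' : ∀ l, b' + ν' * x' l = y' l) (ux : ∀ l k, l ≠ k → IsUnit (x l - x k))
    (uy : ∀ l k, y l = y k ∨ IsUnit (y l - y k)) :
    ν = 0 ∨ (b = 0 ∧ IsUnit ν) := by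
  have P : ∀ l, ν * b' * (x l) ^ 2 + (b * b' + ν * ν' - 1) * x l + b * ν' = 0 := by
    intro l
    have h1 := hx l
    have h2 := hy l
    rw [← e l, ← e' l] at h2
    linear_combination (x l) * h2 - (b * ν' + ν * ν' * x l) * h1
  have D : ∀ l k, l ≠ k → ν * b' * (x l + x k) + (b * b' + ν * ν' - 1) = 0 := by
    intro l k h
    refine (ux l k h).mul_left_cancel ?_
    linear_combination P l - P k
  have h1 : ν * b' = 0 := by
    refine (ux 1 2 (by decide)).mul_left_cancel ?_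
    linear_combination D 0 1 (by decide) - D 0 2 (by decide)
  have h2 : b * b' + ν * ν' - 1 = 0 := by
    linear_combination D 0 1 (by decide) - (x 0 + x 1) * h1
  have h3 : b * ν' = 0 := by
    linear_combination P 0 - (x 0) ^ 2 * h1 - x 0 * h2
  have h4 : ν * (x 0 - x 1) = y 0 - y 1 := by
    linear_combination e 0 - e 1
  rcases uy 0 1 with h | h
  · left
    refine (ux 0 1 (by decide)).mul_left_cancel ?_
    linear_combination h4 + h
  · right
    have h5 : IsUnit ν := by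
      rw [← h4] at h
      exact isUnit_of_mul_isUnit_left h
    have h6 : b' = 0 := by
      refine h5.mul_left_cancel ?_
      linear_combination h1
    refine ⟨?_, h5⟩
    linear_combination - b * h2 + b * b * h6 + ν * h3

theorem pair {Q : Type*} [CommRing Q] {u₁ u₂ w₁ w₂ u₁' u₂' w₁' w₂' : Q}
    (h1 : u₁ * u₁' = 1) (h2 : u₂ * u₂' = 1) (h3 : w₁ * w₁' = 1) (h4 : w₂ * w₂' = 1)
    (e : u₁ + u₂ = w₁ + w₂) (e' : u₁' + u₂' = w₁' + w₂') (hs : IsUnit (u₁ + u₂))
    (d1 : w₁ = u₁ ∨ IsUnit (w₁ - u₁)) :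
    w₁ = u₁ ∨ w₁ = u₂ := by
  have k1 : (u₁' + u₂') * (u₁ * u₂) = u₁ + u₂ := by
    linear_combination u₂ * h1 + u₁ * h2
  have k2 : (u₁' + u₂') * (w₁ * w₂) = u₁ + u₂ := by
    rw [e', e]
    linear_combination w₂ * h3 + w₁ * h4
  have k3 : IsUnit (u₁' + u₂') := by
    rw [← k1] at hs
    exact isUnit_of_mul_isUnit_left hs
  have k4 : u₁ * u₂ = w₁ * w₂ := k3.mul_left_cancel (k1.trans k2.symm)
  have k5 : (w₁ - u₁) * (w₁ - u₂) = 0 := by
    linear_combination k4 - w₁ * e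
  rcases d1 with h | h
  · exact Or.inl h
  · right
    have k6 : w₁ - u₂ = 0 := by
      refine h.mul_left_cancel ?_
      rw [k5, mul_zero]
    exact sub_eq_zero.1 k6

end Pool.Agent.H.MP_b0c270_co.Lo
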