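import Pool.Agent.H.MP_b0c270_co.Lo.Rg

/-! # Lo/Nu: integrality

Every element of `RR N` is integral over the integers (`Subring.closure_induction`, roots of unity
are integral). `half_not_mem`: a rational number which is integral over the integers is an integer. -/

set_option autoImplicit false

namespace Pool.Agent.H.MP_b0c270_co.Lo

variable {N : ℕ} [NeZero N]

private theorem Nu_st (i : Fin N) : stdStart N i ^ N = 1 := by
  have hN : (N : ℂ) ≠ 0 := Nat.cast_ne_zero.2 (NeZero.ne N)
  unfold stdStart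
  rw [← Complex.exp_nat_mul]
  have h : (N : ℂ) * (2 * Real.pi * Complex.I * ((i : ℕ) : ℂ) / N) =
      ((i : ℕ) : ℂ) * (2 * Real.pi * Complex.I) := by
    field_simp
  rw [h]
  exact Complex.exp_nat_mul_two_pi_mul_I _

theorem int_of_mem {x : ℂ} (hx : x ∈ RR N) : IsIntegral ℤ x := by
  have h : RR N ≤ (integralClosure ℤ ℂ).toSubring := by
    refine Subring.closure_le.2 ?_
    rintro _ ⟨i, rfl⟩
    have h1 : IsIntegral ℤ (stdStart N i) := by
      refine IsIntegral.of_pow (n := N) (Nat.pos_of_ne_zero (NeZero.ne N)) ?_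
      rw [Nu_st]
      exact isIntegral_one
    exact h1
  exact h hx

theorem half_not_mem : (1 / 2 : ℂ) ∉ RR N := by
  intro h
  have h1 := int_of_mem h
  have h2 : (1 / 2 : ℂ) = algebraMap ℚ ℂ (1 / 2) := by simp
  rw [h2, isIntegral_algebraMap_iff (algebraMap ℚ ℂ).injective] at h1
  obtain ⟨y, hy⟩ := IsIntegrallyClosed.isIntegral_iff.1 h1
  have h3 : (y : ℚ) = 1 / 2 := by simpa using hy
  have h4 : ((2 * y : ℤ) : ℚ) = ((1 : ℤ) : ℚ) := by
    push_cast
    rw [h3]
    norm_num
  have h5 : 2 * y = 1 := Int.cast_injective h4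
  omega

end Pool.Agent.H.MP_b0c270_co.Lo
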