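import Pool.Agent.H.MP_b0c270_co.Lo.Cc
import Pool.Agent.H.MP_b0c270_co.Lo.Nu

/-! # Lo/Cl: the classes modulo two

`Q = RR N ⧸ Ideal.span {2}`, `mk x = mk y ↔ Cg N x y` for `x`, `y` in `RR N`; `2 = 0` in `Q`; `Q` is
nontrivial (`half_not_mem`); `st i - st j` is a unit of `Q` for `i ≠ j` (`st_sub_inv`), so `st` is
injective modulo two (`st_inj2`). `classify`: three elements of `E`, `circle` with `x l = mk (st i)`,
`x' l = mk (st (-i))` (conjugate the congruence: `RR N` is stable under conjugation, `conj_mem`,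
`st_conj`). If `ν = 0` in `Q` then all `st (K i)` are equal in `Q`. If `b = 0` then for a fixed `i0` in
`E` and `k = K i0 - i0`: `ν = st k`, and `st (K i) = st (i + k)`. `no_two`: `pair` with
`u₁ = st (i + k)`, `u₂ = st i`, `w₁ = st y`, `w₂ = st x` (`- = +` modulo two); `w₁ = u₂` is `y = i`;
`w₁ = u₁` gives `w₂ = u₂`, `x = i`. -/

set_option autoImplicit false

namespace Pool.Agent.H.MP_b0c270_co.Lo

variable {N : ℕ} [NeZero N]

/-! ### the quotient -/

/-- the quotient of the ring of the vertices by two -/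
private abbrev Cl_Q (N : ℕ) : Type := RR N ⧸ (Ideal.span {2} : Ideal (RR N))

/-- the class modulo two -/
private noncomputable def Cl_mk (N : ℕ) : RR N →+* Cl_Q N :=
  Ideal.Quotient.mk (Ideal.span {2} : Ideal (RR N))

omit [NeZero N] in
private theorem Cl_eq {x y : RR N} : Cl_mk N x = Cl_mk N y ↔ Cg N x y := by
  unfold Cl_mk
  rw [Ideal.Quotient.eq, Ideal.mem_span_singleton]
  constructor
  · rintro ⟨r, hr⟩
    have h := congrArg (RR N).subtype hr
    rw [map_sub, map_mul, map_ofNat] at h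
    exact ⟨r, r.2, h⟩
  · rintro ⟨r, hr, h⟩
    refine ⟨⟨r, hr⟩, Subtype.ext ?_⟩
    show (RR N).subtype (x - y) = (RR N).subtype (2 * ⟨r, hr⟩)
    rw [map_sub, map_mul, map_ofNat]
    exact h

/-- the class of a vertex -/
private noncomputable def Cl_st (i : Fin N) : Cl_Q N := Cl_mk N ⟨stdStart N i, st_mem i⟩

private theorem Cl_nt : (1 : Cl_Q N) ≠ 0 := by
  intro h
  rw [← map_one (Cl_mk N), ← map_zero (Cl_mk N), Cl_eq] at h
  obtain ⟨r, hr, h⟩ := h
  have h1 : r = 1 / 2 := by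
    have h2 : ((1 : RR N) : ℂ) - ((0 : RR N) : ℂ) = 1 := by
      show (1 : ℂ) - 0 = 1
      ring
    rw [h2] at h
    linear_combination (-1 / 2 : ℂ) * h
  rw [h1] at hr
  exact half_not_mem hr

omit [NeZero N] in
private theorem Cl_two : (2 : Cl_Q N) = 0 := by
  have h : Cl_mk N 2 = Cl_mk N 0 := by
    unfold Cl_mk
    rw [Ideal.Quotient.eq, Ideal.mem_span_singleton, sub_zero]
  rw [map_ofNat, map_zero] at h
  exact h

private theorem Cl_unit (hN : Odd N) {i j : Fin N} (hij : i ≠ j) :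
    IsUnit (Cl_st i - Cl_st j) := by
  obtain ⟨w, hw, h⟩ := st_sub_inv hN hij
  have h1 : Cl_mk N (⟨w, hw⟩ * (⟨stdStart N i, st_mem i⟩ - ⟨stdStart N j, st_mem j⟩)) =
      Cl_mk N 1 := Cl_eq.2 h
  rw [map_mul, map_sub, map_one, mul_comm] at h1
  exact IsUnit.of_mul_eq_one _ h1

private theorem Cl_inj (hN : Odd N) {i j : Fin N} (h : Cl_st i = Cl_st j) : i = j := by
  by_contra hij
  have h1 := Cl_unit hN hij
  rw [h, sub_self] at h1
  obtain ⟨u, hu⟩ := h1.exists_left_inv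
  rw [mul_zero] at hu
  exact Cl_nt hu.symm

private theorem Cl_mul (i k : Fin N) : Cl_st (i + k) = Cl_st i * Cl_st k := by
  unfold Cl_st
  rw [← map_mul]
  congr 1
  exact Subtype.ext (st_add i k)

private theorem Cl_one (i : Fin N) : Cl_st i * Cl_st (-i) = 1 := by
  rw [← Cl_mul, add_neg_cancel]
  unfold Cl_st
  rw [← map_one (Cl_mk N)]
  congr 1
  exact Subtype.ext st_zero

/-- the conjugate of a congruence -/
private theorem Cl_conj {x y : ℂ} (h : Cg N x y) :
    Cg N ((starRingEnd ℂ) x) ((starRingEnd ℂ) y) := by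
  obtain ⟨r, hr, h⟩ := h
  refine ⟨(starRingEnd ℂ) r, conj_mem hr, ?_⟩
  rw [← map_sub, h, map_mul, map_ofNat]

/-- the vertices are different modulo two -/
theorem st_inj2 (hN : Odd N) {i j : Fin N} (h : Cg N (stdStart N i) (stdStart N j)) : i = j :=
  Cl_inj hN (Cl_eq.2 h)

theorem classify (hN : Odd N) {b ν : ℂ} (hb : b ∈ RR N) (hν : ν ∈ RR N) {E : Finset (Fin N)}
    {K : Fin N → Fin N} (hE : ∀ i ∈ E, Cg N (b + ν * stdStart N i) (stdStart N (K i)))
    (h3 : 3 ≤ E.card) :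
    (∃ m, ∀ i ∈ E, K i = m) ∨
      (Cg N b 0 ∧ ∃ k, Cg N ν (stdStart N k) ∧ ∀ i ∈ E, K i = i + k) := by
  have hE1 : ∀ i ∈ E, Cl_mk N ⟨b, hb⟩ + Cl_mk N ⟨ν, hν⟩ * Cl_st i = Cl_st (K i) := by
    intro i hi
    unfold Cl_st
    rw [← map_mul, ← map_add]
    exact Cl_eq.2 (hE i hi)
  have hE2 : ∀ i ∈ E, Cl_mk N ⟨_, conj_mem hb⟩ + Cl_mk N ⟨_, conj_mem hν⟩ * Cl_st (-i) =
      Cl_st (-(K i)) := by
    intro i hi
    unfold Cl_st
    rw [← map_mul, ← map_add]
    have h := Cl_conj (hE i hi)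
    rw [map_add, map_mul, st_conj, st_conj] at h
    exact Cl_eq.2 h
  obtain ⟨e, he, hinj⟩ : ∃ e : Fin 3 → Fin N, (∀ l, e l ∈ E) ∧ ∀ l k, l ≠ k → e l ≠ e k :=
    ⟨fun l => E.orderEmbOfCardLe h3 l, fun l => E.orderEmbOfCardLe_mem h3 l,
      fun l k h h' => h ((E.orderEmbOfCardLe h3).injective h')⟩
  have hc := circle (x := fun l => Cl_st (e l)) (x' := fun l => Cl_st (-(e l)))
    (y := fun l => Cl_st (K (e l))) (y' := fun l => Cl_st (-(K (e l))))
    (fun l => Cl_one _) (fun l => Cl_one _) (fun l => hE1 _ (he l)) (fun l => hE2 _ (he l))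
    (fun l k h => Cl_unit hN (hinj l k h)) (fun l k => by
      by_cases h : K (e l) = K (e k)
      · left
        show Cl_st (K (e l)) = Cl_st (K (e k))
        rw [h]
      · exact Or.inr (Cl_unit hN h))
  rcases hc with h | ⟨h, -⟩
  · left
    refine ⟨K (e 0), fun i hi => Cl_inj hN ?_⟩
    rw [← hE1 i hi, ← hE1 _ (he 0), h, zero_mul, zero_mul]
  · right
    have hb0 : Cg N b 0 := by
      rw [← map_zero (Cl_mk N)] at h
      exact Cl_eq.1 h
    have h1 : Cl_mk N ⟨ν, hν⟩ = Cl_st (K (e 0) - e 0) := by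
      have h2 := hE1 _ (he 0)
      rw [h, zero_add] at h2
      rw [sub_eq_add_neg, Cl_mul, ← h2, mul_assoc, Cl_one, mul_one]
    refine ⟨hb0, K (e 0) - e 0, Cl_eq.1 h1, fun i hi => Cl_inj hN ?_⟩
    rw [← hE1 i hi, h, zero_add, h1, ← Cl_mul, add_comm]

theorem no_two (hN : Odd N) {i k x y : Fin N} (hk : k ≠ 0) (hx : x ≠ i) (hy : y ≠ i) :
    ¬ Cg N (stdStart N (i + k) - stdStart N i) (stdStart N y - stdStart N x) := by
  intro h
  have h2 : ∀ a c : Cl_Q N, a - c = a + c := by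
    intro a c
    linear_combination - c * (Cl_two (N := N))
  have e1 : Cl_st (i + k) + Cl_st i = Cl_st y + Cl_st x := by
    rw [← h2, ← h2]
    unfold Cl_st
    rw [← map_sub, ← map_sub]
    exact Cl_eq.2 h
  have e2 : Cl_st (-(i + k)) + Cl_st (-i) = Cl_st (-y) + Cl_st (-x) := by
    rw [← h2, ← h2]
    unfold Cl_st
    rw [← map_sub, ← map_sub]
    have h3 := Cl_conj h
    rw [map_sub, map_sub, st_conj, st_conj, st_conj, st_conj] at h3
    exact Cl_eq.2 h3
  have hik : i + k ≠ i := fun h' => hk (add_eq_left.1 h')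
  have hs : IsUnit (Cl_st (i + k) + Cl_st i) := by
    rw [← h2]
    exact Cl_unit hN hik
  have d1 : Cl_st y = Cl_st (i + k) ∨ IsUnit (Cl_st y - Cl_st (i + k)) := by
    by_cases h' : y = i + k
    · left
      rw [h']
    · exact Or.inr (Cl_unit hN h')
  rcases pair (Cl_one _) (Cl_one _) (Cl_one _) (Cl_one _) e1 e2 hs d1 with h4 | h4
  · rw [h4] at e1
    exact hx (Cl_inj hN (add_left_cancel e1)).symm
  · exact hy (Cl_inj hN h4)

end Pool.Agent.H.MP_b0c270_co.Lo
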