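import Pool.Agent.H.MP_b0c270_co.Assemble

/-! # Lo/Defs: definitions for the lower bound `2 N - 3 ≤ f(N)`, `N` odd

`RR N` is the ring generated by the vertices, `Cg` the congruence modulo `2`, `Run` a run of legal
moves, `cnt I n i` the number of jumps of the piece `i`. -/

set_option autoImplicit false

namespace Pool.Agent.H.MP_b0c270_co.Lo

/-- The ring generated by the vertices of the regular `N`-gon. -/
noncomputable def RR (N : ℕ) : Subring ℂ := Subring.closure (Set.range (stdStart N))

/-- Congruence modulo `2`. -/
def Cg (N : ℕ) (x y : ℂ) : Prop := ∃ r ∈ RR N, x - y = 2 * r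

/-- A run of `n` legal moves: `P t` is the configuration at time `t`, at time `t` the piece `I t`
jumps over the piece `J t`. -/
structure Run (N n : ℕ) (P : ℕ → Fin N → ℂ) (I J : ℕ → Fin N) : Prop where
  ne : ∀ t < n, I t ≠ J t
  mv : ∀ t < n, P (t + 1) = Function.update (P t) (I t) (2 * P t (J t) - P t (I t))

/-- The number of jumps of the piece `i`. -/
def cnt {N : ℕ} (I : ℕ → Fin N) (n : ℕ) (i : Fin N) : ℕ :=
  ((Finset.range n).filter fun t => I t = i).card

end Pool.Agent.H.MP_b0c270_co.Lo
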