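import Pool.Agent.H.MP_b0c270_co.Lo.Nu

/-! # Lo/Nn: `2 g - 1` is no unit

`g = st k ≠ 1`, `K = ℚ⟮g⟯` (finite over `ℚ`), `x = 2 g - 1`, `v = x⁻¹` (in `K`, and integral as an element
of `RR N`, `int_of_mem`). The norm of `x` over `ℚ` is the product of the `2 σ(g) - 1` over the embeddings
`σ` of `K` into `ℂ` (`Algebra.norm_eq_prod_embeddings`), each factor has absolute value `> 1` as
`|σ(g)| = 1`, `σ(g) ≠ 1` (`|2 z - 1| > 1` if `|z| = 1`, `z ≠ 1`). So `|Norm v| < 1` and `Norm v ≠ 0`, but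
`v` is integral, so `Norm v` is an integer (`Algebra.isIntegral_norm`): contradiction. -/

set_option autoImplicit false

namespace Pool.Agent.H.MP_b0c270_co.Lo

variable {N : ℕ} [NeZero N]

theorem not_unit {k : Fin N} (hk : k ≠ 0) {v : ℂ} (hv : v ∈ RR N) :
    (2 * stdStart N k - 1) * v ≠ 1 := by
  classical
  intro h
  have hN0 : N ≠ 0 := NeZero.ne N
  have hg1 : stdStart N k ≠ 1 := by
    intro h1
    rw [← st_zero (N := N)] at h1
    exact hk (std_inj hN0 h1)
  have hgN : stdStart N k ^ N = 1 := by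
    unfold stdStart
    rw [exp_eq_rt, ← pow_mul, mul_comm, pow_mul, (rt_prim hN0).pow_eq_one, one_pow]
  generalize hg : stdStart N k = g at h hg1 hgN
  have hgi : IsIntegral ℚ g := by
    refine ⟨Polynomial.X ^ N - 1, Polynomial.monic_X_pow_sub_C 1 hN0, ?_⟩
    simp [hgN]
  have hfd : FiniteDimensional ℚ (IntermediateField.adjoin ℚ {g}) :=
    IntermediateField.adjoin.finiteDimensional hgi
  obtain ⟨gK, hgK⟩ : ∃ gK : IntermediateField.adjoin ℚ {g}, (gK : ℂ) = g :=
    ⟨⟨g, IntermediateField.mem_adjoin_simple_self ℚ g⟩, rfl⟩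
  obtain ⟨x, hx⟩ : ∃ x : IntermediateField.adjoin ℚ {g}, x = 2 * gK - 1 := ⟨_, rfl⟩
  have hxc : (x : ℂ) = 2 * g - 1 := by
    have h1 : ((2 * gK - 1 : IntermediateField.adjoin ℚ {g}) : ℂ) = 2 * (gK : ℂ) - 1 := by
      push_cast
      rfl
    rw [hx, h1, hgK]
  have hx0 : x ≠ 0 := by
    intro h0
    rw [← hxc, h0] at h
    simp at h
  have hinv : ((x⁻¹ : IntermediateField.adjoin ℚ {g}) : ℂ) = v := by
    have h1 : (x : ℂ) * ((x⁻¹ : IntermediateField.adjoin ℚ {g}) : ℂ) = 1 := by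
      have h2 := congrArg (fun y : IntermediateField.adjoin ℚ {g} => (y : ℂ)) (mul_inv_cancel₀ hx0)
      simpa using h2
    have h3 : (x : ℂ) ≠ 0 := by
      intro h0
      rw [h0, zero_mul] at h1
      exact zero_ne_one h1
    rw [← hxc] at h
    exact mul_left_cancel₀ h3 (h1.trans h.symm)
  have hint : IsIntegral ℤ (x⁻¹ : IntermediateField.adjoin ℚ {g}) := by
    have h1 : IsIntegral ℤ ((algebraMap (IntermediateField.adjoin ℚ {g}) ℂ) x⁻¹) := by
      show IsIntegral ℤ ((x⁻¹ : IntermediateField.adjoin ℚ {g}) : ℂ)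
      rw [hinv]
      exact int_of_mem hv
    exact (isIntegral_algebraMap_iff
      (algebraMap (IntermediateField.adjoin ℚ {g}) ℂ).injective).1 h1
  have hnorm : IsIntegral ℤ (Algebra.norm ℚ (x⁻¹ : IntermediateField.adjoin ℚ {g})) :=
    Algebra.isIntegral_norm ℚ hint
  obtain ⟨z, hz⟩ := IsIntegrallyClosed.isIntegral_iff.1 hnorm
  have hprod := Algebra.norm_eq_prod_embeddings ℚ ℂ x
  have hfac : ∀ σ : (IntermediateField.adjoin ℚ {g}) →ₐ[ℚ] ℂ, 1 < ‖σ x‖ := by
    intro σ
    have e1 : σ x = 2 * σ gK - 1 := by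
      rw [hx, map_sub, map_mul, map_one, map_ofNat]
    have e2 : (σ gK) ^ N = 1 := by
      rw [← map_pow]
      have : gK ^ N = 1 := by
        apply Subtype.ext
        show ((gK ^ N : IntermediateField.adjoin ℚ {g}) : ℂ) = 1
        push_cast
        rw [hgK, hgN]
      rw [this, map_one]
    have e3 : ‖σ gK‖ = 1 := Complex.norm_eq_one_of_pow_eq_one e2 hN0
    have e4 : σ gK ≠ 1 := by
      intro h1
      have h2 : gK = 1 := σ.toRingHom.injective (by
        show σ gK = σ 1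
        rw [h1, map_one])
      apply hg1
      rw [← hgK, h2]
      rfl
    rw [e1]
    have e5 : ‖2 * σ gK - 1‖ ^ 2 = 5 - 4 * (σ gK).re := by
      have h6 : (σ gK).re ^ 2 + (σ gK).im ^ 2 = 1 := by
        have h7 := Complex.sq_norm (σ gK)
        rw [e3, Complex.normSq_apply] at h7
        nlinarith
      rw [Complex.sq_norm, Complex.normSq_apply]
      simp only [Complex.sub_re, Complex.mul_re, Complex.sub_im, Complex.mul_im, Complex.one_re,
        Complex.one_im, Complex.re_ofNat, Complex.im_ofNat]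
      nlinarith
    have e6 : (σ gK).re < 1 := by
      refine lt_of_le_of_ne ?_ ?_
      · rw [← e3]
        exact Complex.re_le_norm _
      · intro h1
        apply e4
        have h6 : (σ gK).re ^ 2 + (σ gK).im ^ 2 = 1 := by
          have h7 := Complex.sq_norm (σ gK)
          rw [e3, Complex.normSq_apply] at h7
          nlinarith
        rw [h1] at h6
        apply Complex.ext
        · rw [h1, Complex.one_re]
        · rw [Complex.one_im]
          nlinarith
    nlinarith [norm_nonneg (2 * σ gK - 1)]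
  have hgt : 1 < ‖algebraMap ℚ ℂ (Algebra.norm ℚ x)‖ := by
    rw [hprod, norm_prod]
    have hne : (Finset.univ : Finset ((IntermediateField.adjoin ℚ {g}) →ₐ[ℚ] ℂ)).Nonempty :=
      ⟨IntermediateField.val _, Finset.mem_univ _⟩
    obtain ⟨σ₀, hσ₀⟩ := hne
    rw [← Finset.mul_prod_erase _ _ hσ₀]
    have h1 : 1 ≤ ∏ σ ∈ Finset.univ.erase σ₀, ‖σ x‖ := by
      have := Finset.prod_le_prod (s := Finset.univ.erase σ₀) (f := fun _ => (1 : ℝ))
        (g := fun σ : (IntermediateField.adjoin ℚ {g}) →ₐ[ℚ] ℂ => ‖σ x‖)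
        (fun _ _ => zero_le_one) (fun σ _ => (hfac σ).le)
      simpa using this
    have h2 := hfac σ₀
    nlinarith
  have hmul : Algebra.norm ℚ x * Algebra.norm ℚ (x⁻¹ : IntermediateField.adjoin ℚ {g}) = 1 := by
    rw [← map_mul, mul_inv_cancel₀ hx0, map_one]
  rw [← hz] at hmul
  have hz0 : z ≠ 0 := by
    rintro rfl
    simp at hmul
  have hz1 : (1 : ℝ) ≤ ‖algebraMap ℚ ℂ (algebraMap ℤ ℚ z)‖ := by
    have h1 : algebraMap ℚ ℂ (algebraMap ℤ ℚ z) = (z : ℂ) := by simp
    rw [h1, Complex.norm_intCast]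
    exact_mod_cast Int.one_le_abs hz0
  have h1 : ‖algebraMap ℚ ℂ (Algebra.norm ℚ x)‖ * ‖algebraMap ℚ ℂ (algebraMap ℤ ℚ z)‖ = 1 := by
    rw [← norm_mul, ← map_mul, hmul, map_one, norm_one]
  nlinarith

end Pool.Agent.H.MP_b0c270_co.Lo
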