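import Pool.Agent.H.MP_b0c270_co.Lo.Defs

/-! # Lo/RnB: runs, part B

All statements are inductions on the number of moves (state them for all `m ≤ n` and use induction
on `m`: `cnt I (m + 1) i = cnt I m i + 1` if `I m = i`, otherwise `cnt I m i`, and
`P (m + 1) i = P m i` if `I m ≠ i`). `run_back`: the inverse of a jump is a jump. -/

set_option autoImplicit false

namespace Pool.Agent.H.MP_b0c270_co.Lo

open Finset

variable {N n : ℕ} {P : ℕ → Fin N → ℂ} {I J : ℕ → Fin N}

private theorem RnB_zero (I : ℕ → Fin N) (i : Fin N) : cnt I 0 i = 0 := rfl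

private theorem RnB_eq {I : ℕ → Fin N} {i : Fin N} {m : ℕ} (hi : I m = i) :
    cnt I (m + 1) i = cnt I m i + 1 := by
  unfold cnt
  rw [Finset.range_add_one, Finset.filter_insert, if_pos hi, Finset.card_insert_of_notMem]
  intro h1
  exact absurd (Finset.mem_range.1 (Finset.mem_filter.1 h1).1) (lt_irrefl m)

private theorem RnB_ne {I : ℕ → Fin N} {i : Fin N} {m : ℕ} (hi : I m ≠ i) :
    cnt I (m + 1) i = cnt I m i := by
  unfold cnt
  rw [Finset.range_add_one, Finset.filter_insert, if_neg hi]

private theorem RnB_mv_ne (h : Run N n P I J) {t : ℕ} (ht : t < n) {i : Fin N} (hi : I t ≠ i) :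
    P (t + 1) i = P t i := by
  rw [h.mv t ht, Function.update_of_ne hi.symm]

private theorem RnB_mv_eq (h : Run N n P I J) {t : ℕ} (ht : t < n) {i : Fin N} (hi : I t = i) :
    P (t + 1) i = 2 * P t (J t) - P t i := by
  subst hi
  rw [h.mv t ht, Function.update_self]

private theorem RnB_run_zero (h : Run N n P I J) {i : Fin N} (m : ℕ) (hm : m ≤ n)
    (hi : cnt I m i = 0) : ∀ t ≤ m, P t i = P 0 i := by
  induction m with
  | zero =>
    intro t ht
    rw [Nat.le_zero.1 ht]
  | succ m ih =>
    have h1 : I m ≠ i := by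
      intro h2
      rw [RnB_eq h2] at hi
      exact absurd hi (Nat.succ_ne_zero _)
    rw [RnB_ne h1] at hi
    intro t ht
    rcases Nat.lt_or_ge t (m + 1) with h2 | h2
    · exact ih (by omega) hi t (by omega)
    · have h3 : t = m + 1 := by omega
      rw [h3, RnB_mv_ne h (by omega) h1]
      exact ih (by omega) hi m le_rfl

theorem run_zero (h : Run N n P I J) {i : Fin N} (hi : cnt I n i = 0) :
    P n i = P 0 i := by
  exact RnB_run_zero h n le_rfl hi n le_rfl

private theorem RnB_run_one (h : Run N n P I J) {i : Fin N} (m : ℕ) (hm : m ≤ n)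
    (hi : cnt I m i = 1) :
    (∃ t < m, I t = i ∧ P m i = 2 * P t (J t) - P 0 i) ∧
      ∀ t ≤ m, P t i = P 0 i ∨ P t i = P m i := by
  induction m with
  | zero => exact absurd hi (by rw [RnB_zero]; exact Nat.zero_ne_one)
  | succ m ih =>
    by_cases h1 : I m = i
    · rw [RnB_eq h1] at hi
      have h2 := RnB_run_zero h m (by omega) (Nat.succ_injective hi : cnt I m i = 0)
      refine ⟨⟨m, by omega, h1, ?_⟩, fun t ht => ?_⟩
      · rw [RnB_mv_eq h (by omega) h1, h2 m le_rfl]
      · rcases Nat.lt_or_ge t (m + 1) with h3 | h3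
        · exact Or.inl (h2 t (by omega))
        · have h4 : t = m + 1 := by omega
          rw [h4]
          exact Or.inr rfl
    · rw [RnB_ne h1] at hi
      obtain ⟨⟨t, ht, h2, h3⟩, h4⟩ := ih (by omega) hi
      rw [RnB_mv_ne h (by omega) h1]
      refine ⟨⟨t, by omega, h2, h3⟩, fun t ht => ?_⟩
      rcases Nat.lt_or_ge t (m + 1) with h5 | h5
      · exact h4 t (by omega)
      · have h6 : t = m + 1 := by omega
        rw [h6, RnB_mv_ne h (by omega) h1]
        exact Or.inr rfl

theorem run_one (h : Run N n P I J) {i : Fin N} (hi : cnt I n i = 1) :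
    (∃ t < n, I t = i ∧ P n i = 2 * P t (J t) - P 0 i) ∧
      ∀ t ≤ n, P t i = P 0 i ∨ P t i = P n i := by
  exact RnB_run_one h n le_rfl hi

private theorem RnB_run_two (h : Run N n P I J) {i : Fin N} (m : ℕ) (hm : m ≤ n)
    (hi : cnt I m i = 2) :
    ∃ t₁ < m, ∃ t₂ < m, I t₁ = i ∧ I t₂ = i ∧
      P m i = P 0 i + 2 * (P t₂ (J t₂) - P t₁ (J t₁)) := by
  induction m with
  | zero => exact absurd hi (by rw [RnB_zero]; exact (Nat.succ_ne_zero 1).symm)
  | succ m ih =>
    by_cases h1 : I m = i
    · rw [RnB_eq h1] at hi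
      obtain ⟨⟨t, ht, h2, h3⟩, -⟩ :=
        RnB_run_one h m (by omega) (Nat.succ_injective hi : cnt I m i = 1)
      refine ⟨t, by omega, m, by omega, h2, h1, ?_⟩
      rw [RnB_mv_eq h (by omega) h1, h3]
      ring
    · rw [RnB_ne h1] at hi
      obtain ⟨t₁, ht₁, t₂, ht₂, h2, h3, h4⟩ := ih (by omega) hi
      rw [RnB_mv_ne h (by omega) h1]
      exact ⟨t₁, by omega, t₂, by omega, h2, h3, h4⟩

theorem run_two (h : Run N n P I J) {i : Fin N} (hi : cnt I n i = 2) :
    ∃ t₁ < n, ∃ t₂ < n, I t₁ = i ∧ I t₂ = i ∧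
      P n i = P 0 i + 2 * (P t₂ (J t₂) - P t₁ (J t₁)) := by
  exact RnB_run_two h n le_rfl hi

private theorem RnB_run_image (h : Run N n P I J) (i : Fin N) (m : ℕ) (hm : m ≤ n) :
    ((range (m + 1)).image fun t => P t i).card ≤ cnt I m i + 1 := by
  induction m with
  | zero =>
    refine Finset.card_image_le.trans ?_
    rw [Finset.card_range]
    omega
  | succ m ih =>
    have ih' := ih (by omega)
    rw [Finset.range_add_one, Finset.image_insert]
    by_cases h1 : I m = i
    · rw [RnB_eq h1]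
      exact (Finset.card_insert_le _ _).trans (Nat.succ_le_succ ih')
    · rw [RnB_ne h1, Finset.insert_eq_of_mem]
      · exact ih'
      · refine Finset.mem_image.2 ⟨m, Finset.mem_range.2 (Nat.lt_succ_self m), ?_⟩
        exact (RnB_mv_ne h (by omega) h1).symm

/-- the number of positions of a piece -/
theorem run_image (h : Run N n P I J) (i : Fin N) :
    ((range (n + 1)).image fun t => P t i).card ≤ cnt I n i + 1 := by
  exact RnB_run_image h i n le_rfl

end Pool.Agent.H.MP_b0c270_co.Lo
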