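import Pool.Agent.H.MP_b0c270_co.Lo.Str
import Pool.Agent.H.MP_b0c270_co.Lo.Cb
import Pool.Agent.H.MP_b0c270_co.Lo.Nn
import Pool.Agent.H.MP_b0c270_co.Lo.RnB

/-! # Lo/Mn: the lower bound -/

set_option autoImplicit false

namespace Pool.Agent.H.MP_b0c270_co.Lo

open Finset

/-- the midpoints of `k`-neighbours -/
private theorem Mn_b {N : ℕ} [NeZero N] (hN0 : N ≠ 0) {b ν l v : ℂ} (hv : v ∈ RR N) (hlv : l * v = 1)
    (hl : 1 < ‖l‖) (hν : l + 1 = 2 * ν) {k : Fin N} (hk : k ≠ 0) (F : Finset (Fin N))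
    (hF : ∀ i ∈ F, b + ν * stdStart N i = stdStart N i * stdStart N k ∨
      b + ν * stdStart N i = 2 * b + l * (stdStart N i * stdStart N k)) : F.card ≤ 2 := by
  classical
  have hA : (F.filter fun i => b + ν * stdStart N i = stdStart N i * stdStart N k).card ≤ 1 := by
    rw [Finset.card_le_one]
    intro i hi j hj
    by_contra hij
    have e1 := (Finset.mem_filter.1 hi).2
    have e2 := (Finset.mem_filter.1 hj).2
    have h1 : (ν - stdStart N k) * (stdStart N i - stdStart N j) = 0 := by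
      linear_combination e1 - e2
    rcases mul_eq_zero.1 h1 with h2 | h2
    · have h3 : ν = stdStart N k := sub_eq_zero.1 h2
      refine not_unit hk hv ?_
      have h4 : 2 * ν - 1 = l := by linear_combination (-1 : ℂ) * hν
      rw [← h3, h4, hlv]
    · exact hij (std_inj hN0 (sub_eq_zero.1 h2))
  have hB : (F.filter fun i => b + ν * stdStart N i =
      2 * b + l * (stdStart N i * stdStart N k)).card ≤ 1 := by
    rw [Finset.card_le_one]
    intro i hi j hj
    by_contra hij
    have e1 := (Finset.mem_filter.1 hi).2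
    have e2 := (Finset.mem_filter.1 hj).2
    have h1 : (ν - l * stdStart N k) * (stdStart N i - stdStart N j) = 0 := by
      linear_combination e1 - e2
    rcases mul_eq_zero.1 h1 with h2 | h2
    · have h3 : ν = l * stdStart N k := sub_eq_zero.1 h2
      have h4 : l * (2 * stdStart N k - 1) = 1 := by
        linear_combination (-1 : ℂ) * hν - 2 * h3
      have h5 : ‖l‖ * ‖2 * stdStart N k - 1‖ = 1 := by
        rw [← norm_mul, h4, norm_one]
      have h6 : 1 ≤ ‖2 * stdStart N k - 1‖ := by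
        have h7 := norm_sub_norm_le (2 * stdStart N k) 1
        rw [norm_mul, st_norm, norm_one] at h7
        have h8 : ‖(2 : ℂ)‖ = 2 := by norm_num
        rw [h8] at h7
        linarith
      nlinarith
    · exact hij (std_inj hN0 (sub_eq_zero.1 h2))
  have hsub : F ⊆ (F.filter fun i => b + ν * stdStart N i = stdStart N i * stdStart N k) ∪
      (F.filter fun i => b + ν * stdStart N i = 2 * b + l * (stdStart N i * stdStart N k)) := by
    intro i hi
    rcases hF i hi with h | h
    · exact Finset.mem_union_left _ (Finset.mem_filter.2 ⟨hi, h⟩)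
    · exact Finset.mem_union_right _ (Finset.mem_filter.2 ⟨hi, h⟩)
  have h1 := Finset.card_le_card hsub
  have h2 := Finset.card_union_le
    (F.filter fun i => b + ν * stdStart N i = stdStart N i * stdStart N k)
    (F.filter fun i => b + ν * stdStart N i = 2 * b + l * (stdStart N i * stdStart N k))
  omega

theorem lower_odd {N n : ℕ} (hN : Odd N) (h5 : 5 ≤ N) (h : n ∈ Enlarging (stdStart N) 1) :
    2 * N ≤ n + 3 := by
  classical
  have hN0 : N ≠ 0 := by omega
  have : NeZero N := ⟨hN0⟩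
  obtain ⟨q, R, hR, hr, hq⟩ := h
  obtain ⟨P, I, J, hrun, hP0, hPn⟩ := exists_run hr
  rw [← hPn] at hq
  obtain ⟨c, l, v, hl, hlm, hvm, hlv, ⟨b, hbm, hb⟩, ⟨r, hrm, hr1⟩, hf⟩ :=
    final_form hN (by omega) hrun hP0 hR hq
  have hc2 : c = 2 * b := by linear_combination hb
  obtain ⟨ν, hν⟩ : ∃ ν : ℂ, ν = r + 1 := ⟨_, rfl⟩
  have hνm : ν ∈ RR N := by
    rw [hν]
    exact add_mem hrm (one_mem _)
  have hl2 : l + 1 = 2 * ν := by
    rw [hν]
    linear_combination hr1
  have hst : ∀ i, P 0 i = stdStart N i := fun i => by rw [hP0]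
  have hl' : 1 < ‖l‖ := by rw [hl]; exact hR
  have hl1 : l ≠ 1 := by
    rintro rfl
    rw [norm_one] at hl'
    exact lt_irrefl _ hl'
  have hν0 : ν ≠ 0 := by
    rintro h0
    rw [h0, mul_zero] at hl2
    have : l = -1 := by linear_combination hl2
    rw [this, norm_neg, norm_one] at hl'
    exact lt_irrefl _ hl'
  have hmid : ∀ i, P n i + P 0 i = 2 * (b + ν * stdStart N i) := by
    intro i
    rw [hf, hst, hc2]
    linear_combination (stdStart N i) * hl2
  have hz : ∀ i j, cnt I n i = 0 → cnt I n j = 0 → i = j := by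
    intro i j hi hj
    have e1 := run_zero hrun hi
    have e2 := run_zero hrun hj
    rw [hf, hst] at e1 e2
    have h1 : (l - 1) * (stdStart N i - stdStart N j) = 0 := by linear_combination e1 - e2
    rcases mul_eq_zero.1 h1 with h2 | h2
    · exact absurd (sub_eq_zero.1 h2) hl1
    · exact std_inj hN0 (sub_eq_zero.1 h2)
  have hK' : ∀ i, cnt I n i ≤ 1 → ∃ j, Cg N (b + ν * stdStart N i) (stdStart N j) ∧
      (cnt I n i = 0 → j = i) ∧
      (cnt I n i = 1 → j ≠ i ∧ ∃ t ≤ n, P t j = b + ν * stdStart N i) := by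
    intro i hi
    rcases Nat.lt_or_ge (cnt I n i) 1 with h0 | h0
    · have h0' : cnt I n i = 0 := by omega
      refine ⟨i, ⟨0, zero_mem _, ?_⟩, fun _ => rfl, fun h1 => by omega⟩
      have e1 := hmid i
      rw [run_zero hrun h0', hst] at e1
      linear_combination (-1 / 2 : ℂ) * e1
    · have h1 : cnt I n i = 1 := by omega
      obtain ⟨⟨t, ht, hti, hte⟩, -⟩ := run_one hrun h1
      have e1 := hmid i
      have e2 : P t (J t) = b + ν * stdStart N i := by
        linear_combination (1 / 2 : ℂ) * e1 - (1 / 2 : ℂ) * hte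
      refine ⟨J t, ?_, fun h2 => by omega, fun _ => ⟨?_, t, ht.le, e2⟩⟩
      · rw [← e2]
        exact run_cg hrun hP0 t ht.le (J t)
      · rw [← hti]
        exact (hrun.ne t ht).symm
  choose! K hK using hK'
  rcases Nat.lt_or_ge 2 ((univ.filter fun i => cnt I n i ≤ 1).card) with h3 | h3
  swap
  · exact case_zero (sum_cnt I n) hz h3
  have hmem : ∀ i, i ∈ (univ.filter fun i => cnt I n i ≤ 1) ↔ cnt I n i ≤ 1 := by
    intro i
    rw [Finset.mem_filter]
    exact ⟨fun h => h.2, fun h => ⟨Finset.mem_univ _, h⟩⟩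
  rcases classify hN hbm hνm (E := univ.filter fun i => cnt I n i ≤ 1) (K := K)
    (fun i hi => (hK i ((hmem i).1 hi)).1) h3 with ⟨m, hm⟩ | ⟨hb0, k, hνk, hk⟩
  · -- all single jumpers jump over the piece `m`
    have hm' : ∀ i, cnt I n i ≤ 1 → K i = m := fun i hi => hm i ((hmem i).2 hi)
    refine case_a (sum_cnt I n) m ?_ ?_ ?_
    · intro i hi
      rw [← hm' i (by omega)]
      exact ((hK i (by omega)).2.1 hi).symm
    · intro h1
      exact ((hK m (by omega)).2.2 h1).1 (hm' m (by omega))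
    · refine le_trans ?_ (run_image hrun m)
      refine Finset.card_le_card_of_injOn (fun i => b + ν * stdStart N i) ?_ ?_
      · intro i hi
        have hi1 : cnt I n i = 1 := (Finset.mem_filter.1 (Finset.mem_coe.1 hi)).2
        obtain ⟨-, t, ht, e⟩ := (hK i (by omega)).2.2 hi1
        rw [hm' i (by omega)] at e
        exact Finset.mem_coe.2 (Finset.mem_image.2
          ⟨t, Finset.mem_range.2 (by omega), e⟩)
      · intro i _ j _ hij
        have h1 : ν * stdStart N i = ν * stdStart N j := add_left_cancel hij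
        exact std_inj hN0 (mul_left_cancel₀ hν0 h1)
  · -- the single jumper `i` jumps over the piece `i + k`
    have hk' : ∀ i, cnt I n i ≤ 1 → K i = i + k := fun i hi => hk i ((hmem i).2 hi)
    have hk0 : k ≠ 0 := by
      rintro rfl
      have h0 : ∀ i, cnt I n i ≤ 1 → cnt I n i = 0 := by
        intro i hi
        by_contra h0
        have h1 : cnt I n i = 1 := by omega
        refine ((hK i hi).2.2 h1).1 ?_
        rw [hk' i hi, add_zero]
      obtain ⟨i, hi, j, hj, hij⟩ := Finset.one_lt_card.1 (lt_trans one_lt_two h3)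
      exact hij (hz i j (h0 i ((hmem i).1 hi)) (h0 j ((hmem j).1 hj)))
    refine case_b (sum_cnt I n) ?_ ?_ k ?_
    · intro i hi
      have h1 := (hK i (by omega)).2.1 hi
      rw [hk' i (by omega)] at h1
      exact hk0 (add_eq_left.1 h1)
    · intro i hi
      obtain ⟨t₁, ht₁, t₂, ht₂, hI₁, hI₂, e⟩ := run_two hrun hi
      obtain ⟨b₁, hb₁, eb⟩ := hb0
      obtain ⟨ν₁, hν₁, eν⟩ := hνk
      obtain ⟨r₁, hr₁, er₁⟩ := run_cg hrun hP0 t₁ ht₁.le (J t₁)
      obtain ⟨r₂, hr₂, er₂⟩ := run_cg hrun hP0 t₂ ht₂.le (J t₂)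
      have hne₁ : J t₁ ≠ i := by
        rw [← hI₁]
        exact (hrun.ne t₁ ht₁).symm
      have hne₂ : J t₂ ≠ i := by
        rw [← hI₂]
        exact (hrun.ne t₂ ht₂).symm
      refine no_two hN hk0 hne₁ hne₂ ⟨r₂ - r₁ - b₁ - ν₁ * stdStart N i,
        sub_mem (sub_mem (sub_mem hr₂ hr₁) hb₁) (mul_mem hν₁ (st_mem i)), ?_⟩
      have e1 := hmid i
      rw [hst] at e e1
      rw [st_add]
      linear_combination (1 / 2 : ℂ) * e - (1 / 2 : ℂ) * e1 + er₂ - er₁ - eb
        - (stdStart N i) * eν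
    · refine Mn_b (b := b) hN0 hvm hlv hl' hl2 hk0 _ ?_
      intro i hi
      obtain ⟨h1, h2⟩ := (Finset.mem_filter.1 hi).2
      obtain ⟨-, t, ht, e⟩ := (hK i (by omega)).2.2 h1
      rw [hk' i (by omega)] at e
      rcases (run_one hrun h2).2 t ht with h4 | h4
      · left
        rw [← e, h4, hst, st_add]
      · right
        rw [← e, h4, hf, hc2, st_add]

end Pool.Agent.H.MP_b0c270_co.Lo
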