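import Pool.Agent.H.MP_b0c270_co.Lo.Defs

/-! # Lo/Rg: the ring generated by the vertices

`stdStart N k = rt N ^ k` (`exp_eq_rt`, `rt_prim` of the file Assemble and what it imports).
`st_sub_inv`: let `u ≠ 1`, `u ^ N = 1`. Then `(u - 1) * ∑ l < N, l * u ^ l = N` (telescoping and
`∑ l < N, u ^ l = 0`); with `u = st (i - j)`, `st i - st j = st j * (u - 1)`, `N = 1 + 2 t`.
`st_mul_inv`: from the definition. -/

set_option autoImplicit false

namespace Pool.Agent.H.MP_b0c270_co.Lo

open Finset

variable {N : ℕ} [NeZero N]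

omit [NeZero N] in
private theorem Rg_st (i : Fin N) : stdStart N i = rt N ^ (i : ℕ) := by
  unfold stdStart
  exact exp_eq_rt N i

private theorem Rg_tel (u : ℂ) (n : ℕ) :
    (∑ l ∈ range n, (l : ℂ) * u ^ l) * (u - 1) = n * u ^ n - u * ∑ l ∈ range n, u ^ l := by
  induction n with
  | zero => simp
  | succ n ih =>
    rw [Finset.sum_range_succ, Finset.sum_range_succ, add_mul, ih]
    push_cast
    ring

omit [NeZero N] in
theorem st_mem (i : Fin N) : stdStart N i ∈ RR N :=
  Subring.subset_closure ⟨i, rfl⟩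

theorem st_zero : stdStart N 0 = 1 := by
  rw [Rg_st, Fin.val_zero, pow_zero]

theorem st_add (i k : Fin N) : stdStart N (i + k) = stdStart N i * stdStart N k := by
  rw [Rg_st, Rg_st, Rg_st, Fin.val_add, ← pow_add,
    ← pow_eq_pow_mod _ (rt_prim (NeZero.ne N)).pow_eq_one]

omit [NeZero N] in
theorem st_norm (i : Fin N) : ‖stdStart N i‖ = 1 := by
  have hN : N ≠ 0 := by
    have := i.isLt
    omega
  rw [Rg_st, norm_pow, Complex.norm_eq_one_of_pow_eq_one (rt_prim hN).pow_eq_one hN, one_pow]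

theorem st_conj (i : Fin N) : (starRingEnd ℂ) (stdStart N i) = stdStart N (-i) := by
  have h1 : (starRingEnd ℂ) (stdStart N i) * stdStart N i = 1 := by
    rw [mul_comm, Complex.mul_conj, Complex.normSq_eq_norm_sq, st_norm]
    simp
  have h2 : stdStart N (-i) * stdStart N i = 1 := by
    rw [← st_add, neg_add_cancel, st_zero]
  have h3 : stdStart N i ≠ 0 := by
    intro h
    have h4 := st_norm i
    rw [h, norm_zero] at h4
    exact zero_ne_one h4
  exact mul_right_cancel₀ h3 (h1.trans h2.symm)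

theorem conj_mem {x : ℂ} (hx : x ∈ RR N) : (starRingEnd ℂ) x ∈ RR N := by
  induction hx using Subring.closure_induction with
  | mem x hx =>
    obtain ⟨i, rfl⟩ := hx
    rw [st_conj]
    exact st_mem _
  | zero => rw [map_zero]; exact zero_mem _
  | one => rw [map_one]; exact one_mem _
  | add x y _ _ hx hy => rw [map_add]; exact add_mem hx hy
  | neg x _ hx => rw [map_neg]; exact neg_mem hx
  | mul x y _ _ hx hy => rw [map_mul]; exact mul_mem hx hy

theorem st_sum (hN : 2 ≤ N) : ∑ i : Fin N, stdStart N i = 0 := by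
  have h1 : ∑ i : Fin N, stdStart N i = ∑ i : Fin N, (fun k : ℕ => rt N ^ k) (i : ℕ) :=
    Finset.sum_congr rfl fun i _ => Rg_st i
  rw [h1, Fin.sum_univ_eq_sum_range (fun k : ℕ => rt N ^ k) N]
  exact (rt_prim (NeZero.ne N)).geom_sum_eq_zero (by omega)

theorem st_sub_inv (hN : Odd N) {i j : Fin N} (hij : i ≠ j) :
    ∃ w ∈ RR N, Cg N (w * (stdStart N i - stdStart N j)) 1 := by
  obtain ⟨t, ht⟩ := hN
  have hsub : i = (i - j) + j := (sub_add_cancel i j).symm
  have hst : stdStart N i = stdStart N (i - j) * stdStart N j := by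
    rw [← st_add, ← hsub]
  have huN : stdStart N (i - j) ^ N = 1 := by
    rw [Rg_st, ← pow_mul, mul_comm, pow_mul, (rt_prim (NeZero.ne N)).pow_eq_one, one_pow]
  have hu1 : stdStart N (i - j) ≠ 1 := by
    intro h
    have h1 : stdStart N (i - j) = stdStart N 0 := by rw [h, st_zero]
    have h2 : i - j = 0 := std_inj (NeZero.ne N) h1
    exact hij (sub_eq_zero.1 h2)
  have hum : stdStart N (i - j) ∈ RR N := st_mem _
  generalize stdStart N (i - j) = u at hst huN hu1 hum
  have hg : ∑ l ∈ range N, u ^ l = 0 := by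
    have h1 := geom_sum_mul u N
    rw [huN, sub_self] at h1
    exact (mul_eq_zero.1 h1).resolve_right (sub_ne_zero.2 hu1)
  have hS := Rg_tel u N
  rw [hg, huN, mul_zero, sub_zero, mul_one] at hS
  refine ⟨stdStart N (-j) * ∑ l ∈ range N, (l : ℂ) * u ^ l, ?_, ?_⟩
  · refine mul_mem (st_mem _) (sum_mem fun l _ => mul_mem (natCast_mem _ l) (pow_mem hum l))
  · refine ⟨(t : ℂ), natCast_mem _ t, ?_⟩
    have h2 : stdStart N (-j) * stdStart N j = 1 := by
      rw [← st_add, neg_add_cancel, st_zero]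
    have h3 : stdStart N (-j) * (∑ l ∈ range N, (l : ℂ) * u ^ l) * (stdStart N i - stdStart N j) =
        (stdStart N (-j) * stdStart N j) * ((∑ l ∈ range N, (l : ℂ) * u ^ l) * (u - 1)) := by
      rw [hst]
      ring
    rw [h3, h2, hS, one_mul]
    have h4 : (N : ℂ) = 2 * t + 1 := by
      rw [ht]
      push_cast
      ring
    rw [h4]
    ring

end Pool.Agent.H.MP_b0c270_co.Lo
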