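import Pool.Agent.H.MP_b0c270_co.Lo.Defs

/-! # Lo/RnA: runs, part A

All statements are inductions on the number of moves (state them for all `m ≤ n` and use induction
on `m`: `cnt I (m + 1) i = cnt I m i + 1` if `I m = i`, otherwise `cnt I m i`, and
`P (m + 1) i = P m i` if `I m ≠ i`). `run_back`: the inverse of a jump is a jump. -/

set_option autoImplicit false

namespace Pool.Agent.H.MP_b0c270_co.Lo

open Finset

theorem exists_run {N n : ℕ} [NeZero N] {p q : Fin N → ℂ} (h : Reach n p q) :
    ∃ (P : ℕ → Fin N → ℂ) (I J : ℕ → Fin N), Run N n P I J ∧ P 0 = p ∧ P n = q := by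
  induction h with
  | refl p =>
    exact ⟨fun _ => p, fun _ => 0, fun _ => 0, ⟨fun t ht => absurd ht (Nat.not_lt_zero t),
      fun t ht => absurd ht (Nat.not_lt_zero t)⟩, rfl, rfl⟩
  | @tail n p q r _ hl ih =>
    obtain ⟨P, I, J, hR, h0, hn⟩ := ih
    obtain ⟨i, j, hij, hr⟩ := hl
    refine ⟨fun t => if t ≤ n then P t else r, fun t => if t < n then I t else i,
      fun t => if t < n then J t else j, ⟨?_, ?_⟩, ?_, ?_⟩
    · intro t ht
      by_cases h : t < n
      · simp only [if_pos h]
        exact hR.ne t h
      · simp only [if_neg h]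
        exact hij
    · intro t ht
      by_cases h : t < n
      · have h1 : t ≤ n := h.le
        have h2 : t + 1 ≤ n := h
        simp only [if_pos h, if_pos h1, if_pos h2]
        exact hR.mv t h
      · have h1 : t = n := by omega
        subst h1
        have h2 : ¬ t + 1 ≤ t := by omega
        simp only [if_neg h, if_neg h2, if_pos le_rfl]
        rw [hn]
        exact hr
    · simp only [if_pos (Nat.zero_le n)]
      exact h0
    · have h2 : ¬ n + 1 ≤ n := by omega
      simp only [if_neg h2]

theorem sum_cnt {N : ℕ} (I : ℕ → Fin N) (n : ℕ) : ∑ i, cnt I n i = n := by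
  have h := Finset.card_eq_sum_card_fiberwise (s := Finset.range n)
    (t := (Finset.univ : Finset (Fin N))) (f := I) (fun x _ => Finset.mem_coe.2 (Finset.mem_univ _))
  rw [Finset.card_range] at h
  exact h.symm

variable {N n : ℕ} {P : ℕ → Fin N → ℂ} {I J : ℕ → Fin N}

theorem run_mem (h : Run N n P I J) (M : AddSubgroup ℂ) (x : ℂ) (h0 : ∀ i, P 0 i - x ∈ M) :
    ∀ t ≤ n, ∀ i, P t i - x ∈ M := by
  intro t
  induction t with
  | zero => intro _ i; exact h0 i
  | succ t ih =>
    intro ht i
    have ih' := ih (by omega)
    rw [h.mv t (by omega)]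
    by_cases hi : i = I t
    · subst hi
      rw [Function.update_self]
      have h2 : 2 * P t (J t) - P t (I t) - x =
          (P t (J t) - x) + (P t (J t) - x) - (P t (I t) - x) := by ring
      rw [h2]
      exact M.sub_mem (M.add_mem (ih' _) (ih' _)) (ih' _)
    · rw [Function.update_of_ne hi]
      exact ih' i

theorem run_back (h : Run N n P I J) (M : AddSubgroup ℂ) (x : ℂ) (h0 : ∀ i, P n i - x ∈ M) :
    ∀ t ≤ n, ∀ i, P t i - x ∈ M := by
  have key : ∀ k t, t + k = n → ∀ i, P t i - x ∈ M := by
    intro k
    induction k with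
    | zero =>
      intro t ht i
      have h1 : t = n := by omega
      rw [h1]
      exact h0 i
    | succ k ih =>
      intro t ht i
      have h1 := ih (t + 1) (by omega)
      have hne := h.ne t (by omega)
      have hmv := h.mv t (by omega)
      have hJ : P (t + 1) (J t) = P t (J t) := by rw [hmv, Function.update_of_ne hne.symm]
      have hI : P (t + 1) (I t) = 2 * P t (J t) - P t (I t) := by
        rw [hmv, Function.update_self]
      by_cases hi : i = I t
      · subst hi
        have h2 : P t (I t) - x =
            (P (t + 1) (J t) - x) + (P (t + 1) (J t) - x) - (P (t + 1) (I t) - x) := by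
          rw [hJ, hI]
          ring
        rw [h2]
        exact M.sub_mem (M.add_mem (h1 _) (h1 _)) (h1 _)
      · have h2 : P (t + 1) i = P t i := by rw [hmv, Function.update_of_ne hi]
        rw [← h2]
        exact h1 i
  intro t ht
  exact key (n - t) t (by omega)

/-- every piece keeps its class modulo `2` -/
theorem run_cg (h : Run N n P I J) (h0 : P 0 = stdStart N) :
    ∀ t ≤ n, ∀ i, Cg N (P t i) (stdStart N i) := by
  have hs : ∀ i, stdStart N i ∈ RR N := fun i => Subring.subset_closure ⟨i, rfl⟩
  have key : ∀ t ≤ n, ∀ i, P t i ∈ RR N ∧ Cg N (P t i) (stdStart N i) := by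
    intro t
    induction t with
    | zero =>
      intro _ i
      rw [h0]
      exact ⟨hs i, 0, (RR N).zero_mem, by ring⟩
    | succ t ih =>
      intro ht i
      have ih' := ih (by omega)
      rw [h.mv t (by omega)]
      by_cases hi : i = I t
      · subst hi
        rw [Function.update_self]
        obtain ⟨h1, r, hr, h2⟩ := ih' (I t)
        have h3 := (ih' (J t)).1
        refine ⟨?_, P t (J t) - stdStart N (I t) - r,
          (RR N).sub_mem ((RR N).sub_mem h3 (hs _)) hr, ?_⟩
        · have h4 : 2 * P t (J t) - P t (I t) = P t (J t) + P t (J t) - P t (I t) := by ring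
          rw [h4]
          exact (RR N).sub_mem ((RR N).add_mem h3 h3) h1
        · linear_combination -h2
      · rw [Function.update_of_ne hi]
        exact ih' i
  exact fun t ht i => (key t ht i).2

end Pool.Agent.H.MP_b0c270_co.Lo
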