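import Pool.Agent.H.MP_b0c270_co.Lo.Cl
import Pool.Agent.H.MP_b0c270_co.Lo.RnA

/-! # Lo/Str: the final polygon

`exists_perm`: `P n i = c + a * st (σ i)`, `‖a‖ = R`. Let `ζ = st 1`. (1) `run_mem` with `x = 1` and
`M = (1 - ζ) RR` (all `st i - 1` are in `M`): `P n i - P n j ∈ M`, so with `σ i = 0`, `σ j = 1`:
`a (1 - ζ) ∈ (1 - ζ) RR`, `a ∈ RR`, then `c ∈ RR`. (2) `run_back` with `x = c + a`, `M = a (1 - ζ) RR`:
`1 - ζ = P 0 0 - P 0 1 ∈ a (1 - ζ) RR`, so `a v = 1` with `v ∈ RR`. (3) `run_cg` at `t = n`: the sum over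
`i` gives `N c ∈ 2 RR` (`st_sum`), so `Cg N c 0` as `N` is odd; so `a st (σ i) = st i` modulo two.
Put `l = a st (σ 0)`, so `Cg N l 1`; `a st (σ i) = st i = l st i = a st (σ 0 + i)` modulo two, multiply
by `v`, `st_inj2`: `σ i = σ 0 + i`. The inverse of `l` is `v st (- σ 0)`. -/

set_option autoImplicit false

namespace Pool.Agent.H.MP_b0c270_co.Lo

/-- the multiples of `x` -/
private def Str_M (N : ℕ) (x : ℂ) : AddSubgroup ℂ where
  carrier := {y | ∃ s ∈ RR N, y = x * s}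
  zero_mem' := ⟨0, (RR N).zero_mem, by ring⟩
  add_mem' := by
    rintro _ _ ⟨s, hs, rfl⟩ ⟨t, ht, rfl⟩
    exact ⟨s + t, (RR N).add_mem hs ht, by ring⟩
  neg_mem' := by
    rintro _ ⟨s, hs, rfl⟩
    exact ⟨-s, (RR N).neg_mem hs, by ring⟩

private theorem Str_pow {N : ℕ} (i : Fin N) : stdStart N i = rt N ^ (i : ℕ) := by
  rw [← exp_eq_rt]
  rfl

theorem final_form {N n : ℕ} [NeZero N] (hN : Odd N) (h3 : 3 ≤ N) {P : ℕ → Fin N → ℂ}
    {I J : ℕ → Fin N} (h : Run N n P I J) (h0 : P 0 = stdStart N) {R : ℝ} (hR : 1 < R)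
    (hq : OnNgon (P n) R) :
    ∃ c l v : ℂ, ‖l‖ = R ∧ l ∈ RR N ∧ v ∈ RR N ∧ l * v = 1 ∧ Cg N c 0 ∧ Cg N l 1 ∧
      ∀ i, P n i = c + l * stdStart N i := by
  have hN0 : N ≠ 0 := by omega
  obtain ⟨σ, c, a, ha, hp⟩ := exists_perm hN0 (by linarith) hq
  have hsub : ∀ x, x ∈ RR N → ∀ y, y ∈ RR N → x * y ∈ RR N := fun x hx y hy =>
    (RR N).mul_mem hx hy
  have h1v : ((1 : Fin N) : ℕ) = 1 := by
    rw [Fin.val_one']
    exact Nat.mod_eq_of_lt (by omega)
  have hζ1 : stdStart N 1 = rt N := by rw [Str_pow, h1v, pow_one]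
  have hζm : rt N ∈ RR N := by rw [← hζ1]; exact st_mem 1
  have hne : (1 : ℂ) - rt N ≠ 0 := by
    rw [sub_ne_zero, ← hζ1, ← st_zero (N := N)]
    intro h01
    have := std_inj hN0 h01
    rw [Fin.ext_iff, h1v] at this
    simp at this
  have ha0 : a ≠ 0 := by
    rintro rfl
    rw [norm_zero] at ha
    linarith
  -- all vertices are congruent to one modulo 1 - ζ
  have hst : ∀ i, stdStart N i - 1 ∈ Str_M N (1 - rt N) := by
    intro i
    refine ⟨-∑ k ∈ Finset.range (i : ℕ), rt N ^ k,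
      (RR N).neg_mem (Subring.sum_mem _ fun k _ => Subring.pow_mem _ hζm k), ?_⟩
    rw [Str_pow]
    have := mul_neg_geom_sum (rt N) (i : ℕ)
    linear_combination this
  have hM1 : ∀ i, P n i - 1 ∈ Str_M N (1 - rt N) :=
    run_mem h (Str_M N (1 - rt N)) 1 (fun i => by rw [h0]; exact hst i) n le_rfl
  have hPm : ∀ i, P n i ∈ RR N := by
    intro i
    obtain ⟨s, hs, e⟩ := hM1 i
    have : P n i = (1 - rt N) * s + 1 := by linear_combination e
    rw [this]
    exact (RR N).add_mem (hsub _ ((RR N).sub_mem (RR N).one_mem hζm) _ hs) (RR N).one_mem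
  have haR : a ∈ RR N := by
    obtain ⟨s, hs, e⟩ := (Str_M N (1 - rt N)).sub_mem (hM1 (σ.symm 0)) (hM1 (σ.symm 1))
    have h2 : a * (1 - rt N) = (1 - rt N) * s := by
      rw [← e, hp, hp, Equiv.apply_symm_apply, Equiv.apply_symm_apply, st_zero, hζ1]
      ring
    have h4 : a = s := by
      apply mul_left_cancel₀ hne
      linear_combination h2
    rw [h4]
    exact hs
  have hcR : c ∈ RR N := by
    have : c = P n 0 - a * stdStart N (σ 0) := by rw [hp]; ring
    rw [this]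
    exact (RR N).sub_mem (hPm 0) (hsub _ haR _ (st_mem _))
  -- a is a unit
  obtain ⟨v, hv, hav⟩ : ∃ v ∈ RR N, a * v = 1 := by
    have hM2 : ∀ i, P 0 i - (c + a) ∈ Str_M N (a * (1 - rt N)) := by
      refine run_back h (Str_M N (a * (1 - rt N))) (c + a) (fun i => ?_) 0 (Nat.zero_le n)
      obtain ⟨s, hs, e⟩ := hst (σ i)
      refine ⟨s, hs, ?_⟩
      rw [hp]
      linear_combination a * e
    obtain ⟨s, hs, e⟩ := (Str_M N (a * (1 - rt N))).sub_mem (hM2 0) (hM2 1)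
    refine ⟨s, hs, ?_⟩
    rw [h0, st_zero, hζ1] at e
    apply mul_left_cancel₀ hne
    linear_combination -e
  -- congruences modulo two
  have hcg := run_cg h h0 n le_rfl
  choose r hr hr2 using hcg
  have hc0 : Cg N c 0 := by
    obtain ⟨t, ht⟩ := hN
    have hs1 : ∑ i, (P n i - stdStart N i) = (N : ℂ) * c := by
      rw [Finset.sum_sub_distrib, st_sum (by omega)]
      simp_rw [hp]
      rw [Finset.sum_add_distrib, ← Finset.mul_sum, Equiv.sum_comp σ (stdStart N),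
        st_sum (by omega)]
      simp
    have hs2 : (N : ℂ) * c = 2 * ∑ i, r i := by
      rw [← hs1, Finset.mul_sum]
      exact Finset.sum_congr rfl fun i _ => hr2 i
    refine ⟨∑ i, r i - t * c, (RR N).sub_mem (Subring.sum_mem _ fun i _ => hr i)
      (hsub _ (natCast_mem _ t) _ hcR), ?_⟩
    have h5 : (N : ℂ) = 2 * t + 1 := by
      rw [ht]
      push_cast
      ring
    rw [h5] at hs2
    linear_combination hs2
  obtain ⟨rc, hrc, ec⟩ := hc0
  have hcong : ∀ i, ∃ s ∈ RR N, a * stdStart N (σ i) - stdStart N i = 2 * s := by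
    intro i
    refine ⟨r i - rc, (RR N).sub_mem (hr i) hrc, ?_⟩
    have := hr2 i
    rw [hp] at this
    linear_combination this - ec
  obtain ⟨s0, hs0, e0⟩ := hcong 0
  rw [st_zero] at e0
  have hσ : ∀ i, σ i = σ 0 + i := by
    intro i
    apply st_inj2 hN
    obtain ⟨s, hs, e⟩ := hcong i
    refine ⟨v * (s - s0 * stdStart N i), hsub _ hv _ ((RR N).sub_mem hs
      (hsub _ hs0 _ (st_mem _))), ?_⟩
    rw [st_add]
    linear_combination v * e - v * stdStart N i * e0 -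
      (stdStart N (σ i) - stdStart N (σ 0) * stdStart N i) * hav
  refine ⟨c, a * stdStart N (σ 0), v * stdStart N (-σ 0), ?_, hsub _ haR _ (st_mem _),
    hsub _ hv _ (st_mem _), ?_, ⟨rc, hrc, ec⟩, ⟨s0, hs0, e0⟩, fun i => ?_⟩
  · rw [norm_mul, st_norm, mul_one, ha]
  · have h6 : stdStart N (σ 0) * stdStart N (-σ 0) = 1 := by
      rw [← st_add, add_neg_cancel, st_zero]
    linear_combination stdStart N (σ 0) * stdStart N (-σ 0) * hav + h6
  · rw [hp, hσ, st_add]
    ring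

end Pool.Agent.H.MP_b0c270_co.Lo
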